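import Pool.Graph.R_seed8.TH358.MC.Main

/-! # [DEP] the part of depth one from the spanning statements -/

set_option autoImplicit false

namespace Pool.Agent.H366.FC

namespace DepN

open Pool.Agent.TH358.MC
open H39Gon
open scoped TensorProduct

/-! ### multilinear maps over `ℤ` from functions -/

section ml

variable {V : Type} [AddCommGroup V] {Y : Type} [AddCommGroup Y]

/-- a multilinear map from a function which is additive in each variable -/
noncomputable def mk {n : ℕ} (T : (Fin n → V) → V → Y)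
    (h1 : ∀ (s : Fin n → V) (i : Fin n) (x y v : V), T (Function.update s i (x + y)) v =
      T (Function.update s i x) v + T (Function.update s i y) v)
    (h2 : ∀ (s : Fin n → V) (v w : V), T s (v + w) = T s v + T s w) :
    MultilinearMap ℤ (fun _ : Fin n => V) (V →ₗ[ℤ] Y) where
  toFun s := (AddMonoidHom.mk' (T s) (h2 s)).toIntLinearMap
  map_update_add' := by
    intro inst s i x y
    have h0 : inst = instDecidableEqFin n := Subsingleton.elim _ _
    subst h0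
    ext v
    exact h1 s i x y v
  map_update_smul' := by
    intro inst s i c x
    have h0 : inst = instDecidableEqFin n := Subsingleton.elim _ _
    subst h0
    ext v
    let φ : V →+ Y := AddMonoidHom.mk' (fun x => T (Function.update s i x) v)
      (fun x y => h1 s i x y v)
    exact map_zsmul φ c x

theorem mk_apply {n : ℕ} (T : (Fin n → V) → V → Y) (h1) (h2) (s : Fin n → V) (v : V) :
    mk T h1 h2 s v = T s v := rfl

theorem add1 {n : ℕ} (Q : MultilinearMap ℤ (fun _ : Fin n => V) (V →ₗ[ℤ] Y))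
    (s : Fin n → V) (i : Fin n) (x y v : V) : Q (Function.update s i (x + y)) v =
      Q (Function.update s i x) v + Q (Function.update s i y) v := by
  rw [Q.map_update_add]
  rfl

end ml

/-! ### linear algebra over `ℚ` -/

section lin

theorem sep {Y : Type} [AddCommGroup Y] [Module ℚ Y] (P : Submodule ℚ Y) (y : Y)
    (h : ∀ f : Y →ₗ[ℚ] ℚ, (∀ p ∈ P, f p = 0) → f y = 0) : y ∈ P := by
  by_contra hy
  obtain ⟨f, hf, hf'⟩ := P.exists_dual_map_eq_bot_of_notMem hy inferInstance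
  apply hf
  refine h f (fun p hp => ?_)
  have h1 : f p ∈ P.map f := Submodule.mem_map_of_mem hp
  rw [hf', Submodule.mem_bot] at h1
  exact h1

theorem exists_lin {I T Y : Type} [AddCommGroup T] [Module ℚ T] [AddCommGroup Y] [Module ℚ Y]
    (t : I → T) (c : I → Y)
    (h : ∀ a : I →₀ ℚ, Finsupp.linearCombination ℚ t a = 0 →
      Finsupp.linearCombination ℚ c a = 0) :
    ∃ f : T →ₗ[ℚ] Y, ∀ i, f (t i) = c i := by
  let L := Finsupp.linearCombination ℚ t
  let K := Finsupp.linearCombination ℚ c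
  have hk : LinearMap.ker L ≤ LinearMap.ker K := fun a ha => h a ha
  let f0 : LinearMap.range L →ₗ[ℚ] Y :=
    ((LinearMap.ker L).liftQ K hk) ∘ₗ L.quotKerEquivRange.symm.toLinearMap
  obtain ⟨f, hf⟩ := LinearMap.exists_extend f0
  refine ⟨f, fun i => ?_⟩
  have h1 : L (Finsupp.single i 1) = t i := by
    change Finsupp.linearCombination ℚ t (Finsupp.single i 1) = t i
    rw [Finsupp.linearCombination_single, one_smul]
  have h2 : K (Finsupp.single i 1) = c i := by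
    change Finsupp.linearCombination ℚ c (Finsupp.single i 1) = c i
    rw [Finsupp.linearCombination_single, one_smul]
  have h3 : f (L (Finsupp.single i 1)) = f0 ⟨L (Finsupp.single i 1), ⟨_, rfl⟩⟩ := by
    rw [← hf]
    rfl
  have h4 : L.quotKerEquivRange ((LinearMap.ker L).mkQ (Finsupp.single i 1)) =
      ⟨L (Finsupp.single i 1), ⟨_, rfl⟩⟩ := rfl
  have h5 : L.quotKerEquivRange.symm ⟨L (Finsupp.single i 1), ⟨_, rfl⟩⟩ =
      (LinearMap.ker L).mkQ (Finsupp.single i 1) := by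
    rw [← h4, LinearEquiv.symm_apply_apply]
  have h6 : f0 ⟨L (Finsupp.single i 1), ⟨_, rfl⟩⟩ = K (Finsupp.single i 1) := by
    change ((LinearMap.ker L).liftQ K hk) (L.quotKerEquivRange.symm _) = _
    rw [h5]
    rfl
  calc f (t i) = f (L (Finsupp.single i 1)) := by rw [h1]
    _ = f0 ⟨L (Finsupp.single i 1), ⟨_, rfl⟩⟩ := h3
    _ = K (Finsupp.single i 1) := h6
    _ = c i := h2

/-- every rational vector space is a retract of a product -/
theorem retract (Y : Type) [AddCommGroup Y] [Module ℚ Y] :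
    ∃ r : ((Module.Dual ℚ Y) → ℚ) →ₗ[ℚ] Y, ∀ y : Y, r (fun f => f y) = y := by
  let i : Y →ₗ[ℚ] ((Module.Dual ℚ Y) → ℚ) := LinearMap.pi (fun f => f)
  have hi : LinearMap.ker i = ⊥ := by
    rw [LinearMap.ker_eq_bot, injective_iff_map_eq_zero]
    intro y hy
    have h1 : y ∈ (⊥ : Submodule ℚ Y) := sep ⊥ y (fun f _ => congrFun hy f)
    exact (Submodule.mem_bot ℚ).1 h1
  obtain ⟨r, hr⟩ := i.exists_leftInverse_of_injective hi
  exact ⟨r, fun y => LinearMap.congr_fun hr y⟩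

end lin

section sd

variable {F : Type} [Field F]

theorem sd_mem {m : ℕ} (hS : H39Gon.SpanDual F m) {Y : Type} [AddCommGroup Y] [Module ℚ Y]
    (P : Submodule ℚ Y) (T : MultilinearMap ℤ (fun _ : Fin (m + 1) => UV F) (UV F →ₗ[ℤ] Y))
    (h : ∀ x : F, x ≠ 0 → x ≠ 1 → T (fun _ => cl x) (cl (1 - x)) ∈ P) (s v : UV F) :
    T (fun _ => s) v ∈ P := by
  apply sep
  intro f hf
  let Q : MultilinearMap ℤ (fun _ : Fin (m + 1) => UV F) (UV F →ₗ[ℤ] ℚ) :=
    mk (fun s v => f (T s v)) (fun s i x y v => by rw [add1, map_add])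
      (fun s v w => by rw [map_add, map_add])
  exact hS Q (fun x hx hx1 => hf _ (h x hx hx1)) s v

theorem sd_zero {m : ℕ} (hS : H39Gon.SpanDual F m) {Y : Type} [AddCommGroup Y] [Module ℚ Y]
    (T : MultilinearMap ℤ (fun _ : Fin (m + 1) => UV F) (UV F →ₗ[ℤ] Y))
    (h : ∀ x : F, x ≠ 0 → x ≠ 1 → T (fun _ => cl x) (cl (1 - x)) = 0) (s v : UV F) :
    T (fun _ => s) v = 0 :=
  (Submodule.mem_bot ℚ).1 (sd_mem hS ⊥ T (fun x hx hx1 => (Submodule.mem_bot ℚ).2 (h x hx hx1))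
    s v)

end sd

/-! ### the maps `σ_n : V^n × V → C`, `σ_n (x, ..., x; 1 - x) = Li_{n+1}(x)` -/

section sig

variable {F : Type} [Field F] {C : Type} [AddCommGroup C] [Module ℚ C] (M : MotivicLie C F)

/-- evaluation at a tuple -/
noncomputable def evt {n : ℕ} (s : Fin n → UV F) (v : UV F) :
    Module.Dual ℚ (MultilinearMap ℤ (fun _ : Fin n => UV F) (UV F →ₗ[ℤ] ℚ)) where
  toFun Q := Q s v
  map_add' _ _ := rfl
  map_smul' _ _ := rfl

/-- the property of `σ_n` -/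
def IsSig (n : ℕ) (σ : MultilinearMap ℤ (fun _ : Fin n => UV F) (UV F →ₗ[ℤ] C)) : Prop :=
  ∀ x : F, x ≠ 0 → σ (fun _ => cl x) (cl (1 - x)) = M.Li (n + 1) x

theorem isSig_exists (n : ℕ) : ∃ σ, IsSig M n σ := by
  induction n with
  | zero =>
    refine ⟨MultilinearMap.constOfIsEmpty ℤ _ (- gOf M.φ), fun x hx => ?_⟩
    rw [M.Li_one x hx, ← g_cl]
    rfl
  | succ n ih =>
    obtain ⟨σ, hσ⟩ := ih
    let t : {x : F // x ≠ 0} → Module.Dual ℚ (MultilinearMap ℤ (fun _ : Fin (n + 1) => UV F)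
      (UV F →ₗ[ℤ] ℚ)) := fun x => evt (fun _ => cl x.1) (cl (1 - x.1))
    obtain ⟨f, hf⟩ := exists_lin t (fun x => M.Li (n + 2) x.1) (by
      intro a ha
      refine M.ext_one (n + 2) _ (by omega) ?_ ?_
      · rw [Finsupp.linearCombination_apply]
        exact Submodule.sum_mem _ fun x _ => Submodule.smul_mem _ _ (M.Li_mem _ _ (by omega) x.2)
      · refine (Submodule.mem_bot ℚ).1 (sep ⊥ _ fun θ _ => ?_)
        let Q : MultilinearMap ℤ (fun _ : Fin (n + 1) => UV F) (UV F →ₗ[ℤ] ℚ) :=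
          mk (fun s v => θ (ExteriorAlgebra.ι ℚ (σ (Fin.tail s) v) *
            ExteriorAlgebra.ι ℚ (gOf M.φ (s 0))))
            (fun s i x y v => by
              induction i using Fin.cases with
              | zero =>
                simp only [Fin.tail_update_zero, Function.update_self, map_add, mul_add]
              | succ i =>
                simp only [Fin.tail_update_succ, add1, map_add, add_mul]
                rfl)
            (fun s v w => by simp only [map_add, add_mul])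
        have h1 : ∑ x ∈ a.support, a x * θ (ExteriorAlgebra.ι ℚ (M.Li (n + 1) x.1) *
            ExteriorAlgebra.ι ℚ (M.φ (cls x.1))) = 0 := by
          have h2 := congrArg (fun g => g Q) ha
          rw [Finsupp.linearCombination_apply, Finsupp.sum] at h2
          change (∑ x ∈ a.support, a x • t x) Q = 0 at h2
          rw [LinearMap.sum_apply] at h2
          rw [← h2]
          refine Finset.sum_congr rfl fun x _ => ?_
          rw [← hσ x.1 x.2, ← g_cl]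
          rfl
        rw [Finsupp.linearCombination_apply, Finsupp.sum, map_sum, map_sum, map_sum, ← h1]
        refine Finset.sum_congr rfl fun x _ => ?_
        rw [map_smul, map_smul, map_smul, M.Li_succ (n + 1) x.1 (by omega) x.2, smul_eq_mul])
    refine ⟨mk (fun s v => f (evt s v)) (fun s i x y v => ?_) (fun s v w => ?_), fun x hx => ?_⟩
    · rw [← map_add]
      congr 1
      ext Q
      exact add1 Q s i x y v
    · rw [← map_add]
      congr 1
      ext Q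
      exact map_add (Q s) v w
    · exact hf ⟨x, hx⟩

/-- a family of maps `σ_n` -/
theorem sig_exists : ∃ σ : ∀ n : ℕ, MultilinearMap ℤ (fun _ : Fin n => UV F) (UV F →ₗ[ℤ] C),
    ∀ n, IsSig M n (σ n) := by
  choose σ hσ using isSig_exists M
  exact ⟨σ, hσ⟩

omit [AddCommGroup C] [Module ℚ C] in
theorem exists_cl (s : UV F) : s = 0 ∨ ∃ x : F, x ≠ 0 ∧ x ≠ 1 ∧ s = cl (1 - x) := by
  set z : F := ((Additive.toMul s : Fˣ) : F) with hz
  have hz0 : z ≠ 0 := (Additive.toMul s : Fˣ).ne_zero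
  have hcl : cl z = s := by
    unfold cl
    rw [dif_neg hz0]
    have h1 : Units.mk0 z hz0 = Additive.toMul s := Units.ext rfl
    rw [h1]
    rfl
  by_cases h1 : z = 1
  · left
    rw [← hcl, h1]
    unfold cl
    rw [dif_neg one_ne_zero]
    have h4 : Units.mk0 (1 : F) one_ne_zero = 1 := Units.ext rfl
    rw [h4]
    rfl
  · right
    refine ⟨1 - z, fun h => h1 (sub_eq_zero.1 h).symm, fun h => hz0 ?_, ?_⟩
    · linear_combination -h
    · rw [sub_sub_cancel, hcl]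

variable (hS : ∀ m, H39Gon.SpanDual F m)
  (σ : ∀ n : ℕ, MultilinearMap ℤ (fun _ : Fin n => UV F) (UV F →ₗ[ℤ] C))
  (hσ : ∀ n, IsSig M n (σ n))

include hσ in
theorem sig_zero (s : Fin 0 → UV F) (v : UV F) : σ 0 s v = - gOf M.φ v := by
  rcases exists_cl v with rfl | ⟨x, hx, -, rfl⟩
  · rw [map_zero, map_zero, neg_zero]
  · have h : s = fun _ => cl x := Subsingleton.elim _ _
    rw [h, hσ 0 x hx, M.Li_one x hx, g_cl]

include hS hσ in
theorem sig_mem (n : ℕ) (s v : UV F) : σ (n + 1) (fun _ => s) v ∈ M.W (n + 2) :=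
  sd_mem (hS n) _ (σ (n + 1)) (fun x hx _ => by
    rw [hσ (n + 1) x hx]
    exact M.Li_mem _ _ (by omega) hx) s v

include hS hσ in
theorem d_sig (n : ℕ) (s v : UV F) : M.d (ExteriorAlgebra.ι ℚ (σ (n + 1) (fun _ => s) v)) =
    ExteriorAlgebra.ι ℚ (σ n (fun _ => s) v) * ExteriorAlgebra.ι ℚ (gOf M.φ s) := by
  let T : MultilinearMap ℤ (fun _ : Fin (n + 1) => UV F) (UV F →ₗ[ℤ] ExteriorAlgebra ℚ C) :=
    mk (fun s v => M.d (ExteriorAlgebra.ι ℚ (σ (n + 1) s v)) -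
      ExteriorAlgebra.ι ℚ (σ n (Fin.tail s) v) * ExteriorAlgebra.ι ℚ (gOf M.φ (s 0)))
      (fun s i x y v => by
        induction i using Fin.cases with
        | zero =>
          simp only [Fin.tail_update_zero, Function.update_self, map_add, mul_add, add1]
          abel
        | succ i =>
          simp only [Fin.tail_update_succ, add1, map_add, add_mul]
          change _ - (_ * ExteriorAlgebra.ι ℚ (gOf M.φ (s 0)) +
            _ * ExteriorAlgebra.ι ℚ (gOf M.φ (s 0))) = _ - _ *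
              ExteriorAlgebra.ι ℚ (gOf M.φ (s 0)) + (_ - _ * ExteriorAlgebra.ι ℚ (gOf M.φ (s 0)))
          abel)
      (fun s v w => by
        simp only [map_add, add_mul]
        abel)
  have h := sd_zero (hS n) T (fun x hx _ => by
    change M.d (ExteriorAlgebra.ι ℚ (σ (n + 1) (fun _ => cl x) (cl (1 - x)))) -
      ExteriorAlgebra.ι ℚ (σ n (fun _ => cl x) (cl (1 - x))) *
        ExteriorAlgebra.ι ℚ (gOf M.φ (cl x)) = 0
    rw [hσ (n + 1) x hx, hσ n x hx, g_cl, M.Li_succ (n + 1) x (by omega) hx, sub_self]) s v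
  exact sub_eq_zero.1 h

include hS hσ in
theorem sig_self (n : ℕ) (s : UV F) : σ (n + 1) (fun _ => s) s = 0 := by
  induction n with
  | zero =>
    refine M.ext_one 2 _ le_rfl (sig_mem M hS σ hσ 0 s s) ?_
    rw [d_sig M hS σ hσ]
    have h : σ 0 (fun _ => s) s = - gOf M.φ s := sig_zero M σ hσ _ s
    rw [h, map_neg, neg_mul, ExteriorAlgebra.ι_sq_zero, neg_zero]
  | succ n ih =>
    refine M.ext_one (n + 3) _ (by omega) (sig_mem M hS σ hσ (n + 1) s s) ?_
    rw [d_sig M hS σ hσ, ih, map_zero, zero_mul]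

end sig

/-! ### functionals on the exterior algebra -/

section alt

variable {C : Type} [AddCommGroup C] [Module ℚ C]

/-- linear maps are alternating maps in one variable -/
noncomputable def A1 : (C →ₗ[ℚ] ℚ) →ₗ[ℚ] (C [⋀^Fin 1]→ₗ[ℚ] ℚ) where
  toFun f := AlternatingMap.ofSubsingleton ℚ C ℚ (0 : Fin 1) f
  map_add' _ _ := rfl
  map_smul' _ _ := rfl

theorem A1_apply (f : C →ₗ[ℚ] ℚ) (x : C) : A1 f (fun _ => x) = f x := rfl

/-- antisymmetrisation of bilinear forms -/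
noncomputable def A2 : (C →ₗ[ℚ] C →ₗ[ℚ] ℚ) →ₗ[ℚ] (C [⋀^Fin 2]→ₗ[ℚ] ℚ) :=
  AlternatingMap.alternatizeUncurryFinLM ∘ₗ (LinearMap.compRight ℚ A1)

/-- antisymmetrisation of trilinear forms -/
noncomputable def A3 : (C →ₗ[ℚ] C →ₗ[ℚ] C →ₗ[ℚ] ℚ) →ₗ[ℚ] (C [⋀^Fin 3]→ₗ[ℚ] ℚ) :=
  AlternatingMap.alternatizeUncurryFinLM ∘ₗ (LinearMap.compRight ℚ A2)

theorem A2_apply (B : C →ₗ[ℚ] C →ₗ[ℚ] ℚ) (a b : C) : A2 B ![a, b] = B a b - B b a := by
  change AlternatingMap.alternatizeUncurryFin (A1 ∘ₗ B) ![a, b] = _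
  rw [AlternatingMap.alternatizeUncurryFin_apply, Fin.sum_univ_two]
  have e0 : (0 : Fin 2).removeNth ![a, b] = fun _ => b := by
    ext i; fin_cases i; rfl
  have e1 : (1 : Fin 2).removeNth ![a, b] = fun _ => a := by
    ext i; fin_cases i; rfl
  rw [e0, e1]
  simp [A1_apply]
  ring

theorem A3_apply (T : C →ₗ[ℚ] C →ₗ[ℚ] C →ₗ[ℚ] ℚ) (a b c : C) : A3 T ![a, b, c] =
    T a b c - T a c b - (T b a c - T b c a) + (T c a b - T c b a) := by
  change AlternatingMap.alternatizeUncurryFin (A2 ∘ₗ T) ![a, b, c] = _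
  rw [AlternatingMap.alternatizeUncurryFin_apply, Fin.sum_univ_three]
  have e0 : (0 : Fin 3).removeNth ![a, b, c] = ![b, c] := by
    ext i; fin_cases i <;> rfl
  have e1 : (1 : Fin 3).removeNth ![a, b, c] = ![a, c] := by
    ext i; fin_cases i <;> rfl
  have e2 : (2 : Fin 3).removeNth ![a, b, c] = ![a, b] := by
    ext i; fin_cases i <;> rfl
  rw [e0, e1, e2]
  simp [A2_apply]
  ring

theorem functional_two (B : C →ₗ[ℚ] C →ₗ[ℚ] ℚ) : ∃ θ : ExteriorAlgebra ℚ C →ₗ[ℚ] ℚ,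
    ∀ a b : C, θ (ExteriorAlgebra.ι ℚ a * ExteriorAlgebra.ι ℚ b) = B a b - B b a := by
  refine ⟨ExteriorAlgebra.liftAlternating (Function.update 0 2 (A2 B)), fun a b => ?_⟩
  have h := ExteriorAlgebra.liftAlternating_apply_ιMulti
    (Function.update (0 : ∀ i, C [⋀^Fin i]→ₗ[ℚ] ℚ) 2 (A2 B)) ![a, b]
  rw [Function.update_self, A2_apply] at h
  rw [← h]
  congr 1
  simp [ExteriorAlgebra.ιMulti_succ_apply]

theorem functional_three (T : C →ₗ[ℚ] C →ₗ[ℚ] C →ₗ[ℚ] ℚ) :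
    ∃ θ : ExteriorAlgebra ℚ C →ₗ[ℚ] ℚ, ∀ a b c : C,
      θ (ExteriorAlgebra.ι ℚ a * (ExteriorAlgebra.ι ℚ b * ExteriorAlgebra.ι ℚ c)) =
      T a b c - T a c b - (T b a c - T b c a) + (T c a b - T c b a) := by
  refine ⟨ExteriorAlgebra.liftAlternating (Function.update 0 3 (A3 T)), fun a b c => ?_⟩
  have h := ExteriorAlgebra.liftAlternating_apply_ιMulti
    (Function.update (0 : ∀ i, C [⋀^Fin i]→ₗ[ℚ] ℚ) 3 (A3 T)) ![a, b, c]
  rw [Function.update_self, A3_apply] at h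
  rw [← h]
  congr 1
  simp [ExteriorAlgebra.ιMulti_succ_apply]

end alt

/-! ### versions of `koszul_step` -/

section koszul

variable {V : Type} [AddCommGroup V]

/-- alternating maps in one variable are linear maps -/
noncomputable def toL (f : V [⋀^Fin 1]→ₗ[ℤ] ℚ) : V →ₗ[ℤ] ℚ :=
  (AlternatingMap.ofSubsingleton ℤ V ℚ (0 : Fin 1)).symm f

theorem toL_apply (f : V [⋀^Fin 1]→ₗ[ℤ] ℚ) (v : V) : toL f v = f (fun _ => v) := rfl

theorem K0 (m : ℕ) (Q : MultilinearMap ℤ (fun _ : Fin (m + 2) => V) (V →ₗ[ℤ] ℚ))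
    (hS : ∀ s : V, Q (fun _ => s) s = 0) :
    ∃ Q' : MultilinearMap ℤ (fun _ : Fin (m + 1) => V) (V →ₗ[ℤ] (V →ₗ[ℤ] ℚ)),
      (∀ s : V, Q' (fun _ => s) s = 0) ∧ ∀ s v : V, Q' (fun _ => s) v s = Q (fun _ => s) v := by
  let Q0 : MultilinearMap ℤ (fun _ : Fin (m + 2) => V) (V →ₗ[ℤ] (V [⋀^Fin 0]→ₗ[ℤ] ℚ)) :=
    mk (fun s v => AlternatingMap.constOfIsEmpty ℤ V (Fin 0) (Q s v))
      (fun s i x y v => by rw [add1]; rfl) (fun s v w => by rw [map_add]; rfl)
  obtain ⟨Q', h1, h2⟩ := koszul_step m 0 Q0 (fun s => by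
    change AlternatingMap.constOfIsEmpty ℤ V (Fin 0) (Q (fun _ => s) s) = 0
    rw [hS]; rfl) (fun i hi => by omega)
  refine ⟨mk (fun s v => toL (Q' s v)) (fun s i x y v => by rw [add1]; rfl)
    (fun s v w => by rw [map_add]; rfl), fun s => ?_, fun s v => ?_⟩
  · change toL (Q' (fun _ => s) s) = 0
    rw [h1]; rfl
  · change Q' (fun _ => s) v (fun _ => s) = _
    have h3 := h2 s v Fin.elim0
    have h4 : (Fin.cons s Fin.elim0 : Fin 1 → V) = fun _ => s := by
      ext i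
      fin_cases i
      rfl
    rw [h4] at h3
    exact h3

/-- alternating maps in two variables are bilinear maps -/
noncomputable def toB (f : V [⋀^Fin 2]→ₗ[ℤ] ℚ) : V →ₗ[ℤ] (V →ₗ[ℤ] ℚ) :=
  (AddMonoidHom.mk' (fun y => toL (f.curryLeft y)) (fun y y' => by
    rw [map_add]; rfl)).toIntLinearMap

theorem toB_apply (f : V [⋀^Fin 2]→ₗ[ℤ] ℚ) (v w : V) : toB f v w = f ![v, w] := by
  change f (Matrix.vecCons v (fun _ => w)) = _
  congr 1
  ext i
  fin_cases i <;> rfl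

theorem K1 (m : ℕ) (Q : MultilinearMap ℤ (fun _ : Fin (m + 2) => V) (V →ₗ[ℤ] (V →ₗ[ℤ] ℚ)))
    (hS : ∀ s : V, Q (fun _ => s) s = 0) (hD : ∀ s v : V, Q (fun _ => s) v s = 0) :
    ∃ Q' : MultilinearMap ℤ (fun _ : Fin (m + 1) => V) (V →ₗ[ℤ] (V →ₗ[ℤ] (V →ₗ[ℤ] ℚ))),
      (∀ s : V, Q' (fun _ => s) s = 0) ∧
      (∀ (s : Fin (m + 1) → V) (v y y' : V), Q' s v y y' = - Q' s v y' y) ∧
      ∀ s v y : V, Q' (fun _ => s) v s y = Q (fun _ => s) v y := by
  let Q0 : MultilinearMap ℤ (fun _ : Fin (m + 2) => V) (V →ₗ[ℤ] (V [⋀^Fin 1]→ₗ[ℤ] ℚ)) :=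
    mk (fun s v => AlternatingMap.ofSubsingleton ℤ V ℚ (0 : Fin 1) (Q s v))
      (fun s i x y v => by rw [add1]; rfl) (fun s v w => by rw [map_add]; rfl)
  obtain ⟨Q', h1, h2⟩ := koszul_step m 1 Q0 (fun s => by
    change AlternatingMap.ofSubsingleton ℤ V ℚ (0 : Fin 1) (Q (fun _ => s) s) = 0
    rw [hS]; rfl) (fun i hi s v y => by
      obtain rfl : i = 0 := by omega
      exact hD s v)
  refine ⟨mk (fun s v => toB (Q' s v)) (fun s i x y v => by rw [add1]; rfl)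
    (fun s v w => by rw [map_add]; rfl), fun s => ?_, fun s v y y' => ?_, fun s v y => ?_⟩
  · change toB (Q' (fun _ => s) s) = 0
    rw [h1]; rfl
  · change toB (Q' s v) y y' = - toB (Q' s v) y' y
    rw [toB_apply, toB_apply]
    have h3 := (Q' s v).map_swap ![y', y] (i := 0) (j := 1) (by decide)
    rw [← h3]
    congr 1
    ext i
    fin_cases i <;> rfl
  · change toB (Q' (fun _ => s) v) s y = _
    rw [toB_apply]
    have h3 := h2 s v (fun _ => y)
    have h4 : (Fin.cons s (fun _ => y) : Fin 2 → V) = ![s, y] := by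
      ext i
      fin_cases i <;> rfl
    rw [h4] at h3
    exact h3

end koszul

/-! ### extension of linear maps from `V` to `C` -/

section ext

variable {F : Type} [Field F] {C : Type} [AddCommGroup C] [Module ℚ C] (M : MotivicLie C F)

theorem exists_rho : ∃ ρ : C →ₗ[ℚ] (ℚ ⊗[ℤ] UV F), (∀ v, ρ (M.φ v) = v) ∧
    ∀ n, n ≠ 1 → ∀ c ∈ M.W n, ρ c = 0 := by
  obtain ⟨r, hr⟩ := M.φ.exists_leftInverse_of_injective (LinearMap.ker_eq_bot.2 M.φ_inj)
  obtain ⟨π, hπ⟩ := scale M.toLieCoalg (fun i => if i = 1 then 1 else 0)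
  refine ⟨r ∘ₗ π, fun v => ?_, fun n hn c hc => ?_⟩
  · have h1 := hπ 1 (M.φ v) (phi_mem M v)
    rw [if_pos rfl, one_smul] at h1
    rw [LinearMap.comp_apply, h1]
    exact LinearMap.congr_fun hr v
  · rw [LinearMap.comp_apply, hπ n c hc, if_neg hn, zero_smul, map_zero]

theorem exists_ext (Y : Type) [AddCommGroup Y] [Module ℚ Y] :
    ∃ E : (UV F →ₗ[ℤ] Y) →ₗ[ℚ] (C →ₗ[ℚ] Y), (∀ f v, E f (gOf M.φ v) = f v) ∧
      ∀ f n, n ≠ 1 → ∀ c ∈ M.W n, E f c = 0 := by
  obtain ⟨ρ, h1, h2⟩ := exists_rho M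
  refine ⟨{ toFun := fun f => (LinearMap.liftBaseChange ℚ f) ∘ₗ ρ
            map_add' := fun f g => ?_
            map_smul' := fun c f => ?_ }, fun f v => ?_, fun f n hn c hc => ?_⟩
  · ext c
    obtain ⟨q, v, hv⟩ := pure (ρ c)
    simp only [LinearMap.comp_apply, LinearMap.add_apply, hv, LinearMap.liftBaseChange_tmul,
      smul_add]
  · ext x
    obtain ⟨q, v, hv⟩ := pure (ρ x)
    simp only [LinearMap.comp_apply, LinearMap.smul_apply, hv, LinearMap.liftBaseChange_tmul,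
      RingHom.id_apply]
    rw [smul_comm]
  · change LinearMap.liftBaseChange ℚ f (ρ (gOf M.φ v)) = f v
    rw [gOf_apply, h1, LinearMap.liftBaseChange_tmul, one_smul]
  · change LinearMap.liftBaseChange ℚ f (ρ c) = 0
    rw [h2 n hn c hc, map_zero]

end ext

/-! ### functionals with prescribed values on the polylogarithms -/

section one

variable {F : Type} [Field F] {C : Type} [AddCommGroup C] [Module ℚ C] (M : MotivicLie C F)

/-- scalar version -/
def IS (m : ℕ) : Prop := ∀ Q : MultilinearMap ℤ (fun _ : Fin (m + 1) => UV F) (UV F →ₗ[ℤ] ℚ),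
  (∀ s, Q (fun _ => s) s = 0) →
  ∃ l : C →ₗ[ℚ] ℚ, ∀ x : F, x ≠ 0 → l (M.Li (m + 2) x) = Q (fun _ => cl x) (cl (1 - x))

/-- vector version -/
theorem IS.vec {m : ℕ} (h : IS M m) {Y : Type} [AddCommGroup Y] [Module ℚ Y]
    (Q : MultilinearMap ℤ (fun _ : Fin (m + 1) => UV F) (UV F →ₗ[ℤ] Y))
    (hQ : ∀ s, Q (fun _ => s) s = 0) :
    ∃ l : C →ₗ[ℚ] Y, ∀ x : F, x ≠ 0 → l (M.Li (m + 2) x) = Q (fun _ => cl x) (cl (1 - x)) := by
  obtain ⟨r, hr⟩ := retract Y
  have h1 : ∀ f : Module.Dual ℚ Y, ∃ l : C →ₗ[ℚ] ℚ, ∀ x : F, x ≠ 0 →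
      l (M.Li (m + 2) x) = f (Q (fun _ => cl x) (cl (1 - x))) := by
    intro f
    exact h (mk (fun s v => f (Q s v)) (fun s i x y v => by rw [add1, map_add])
      (fun s v w => by rw [map_add, map_add])) (fun s => by
        change f (Q (fun _ => s) s) = 0
        rw [hQ, map_zero])
  choose l hl using h1
  refine ⟨r ∘ₗ (LinearMap.pi l), fun x hx => ?_⟩
  rw [LinearMap.comp_apply, ← hr (Q (fun _ => cl x) (cl (1 - x)))]
  congr 1
  ext f
  exact hl f x hx

theorem IS_zero : IS M 0 := by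
  intro Q hQ
  -- `Q` as a bilinear form
  let q : UV F →ₗ[ℤ] (UV F →ₗ[ℤ] ℚ) := (AddMonoidHom.mk' (fun s => Q (fun _ => s))
    (fun x y => by
      have h1 := Q.map_update_add (fun _ => 0) 0 x y
      have e : ∀ z : UV F, Function.update (fun _ : Fin 1 => (0 : UV F)) 0 z = fun _ => z := by
        intro z
        ext i
        fin_cases i
        rfl
      rwa [e, e, e] at h1)).toIntLinearMap
  have hq : ∀ s v, q s v = Q (fun _ => s) v := fun s v => rfl
  have hq' : ∀ s v, q s v = - q v s := by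
    intro s v
    have h1 : q (s + v) (s + v) = 0 := hQ _
    have h2 : q s s = 0 := hQ _
    have h3 : q v v = 0 := hQ _
    rw [map_add, map_add, LinearMap.add_apply, LinearMap.add_apply, h2, h3] at h1
    linarith
  obtain ⟨E, hE, -⟩ := exists_ext M (UV F →ₗ[ℤ] ℚ)
  obtain ⟨E', hE', -⟩ := exists_ext M ℚ
  obtain ⟨θ, hθ⟩ := functional_two (E' ∘ₗ (E q))
  refine ⟨(1 / 2 : ℚ) • (θ ∘ₗ M.d ∘ₗ ExteriorAlgebra.ι ℚ), fun x hx => ?_⟩
  change (1 / 2 : ℚ) * θ (M.d (ExteriorAlgebra.ι ℚ (M.Li 2 x))) = _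
  rw [M.Li_succ 1 x le_rfl hx, M.Li_one x hx, hθ, ← g_cl, ← g_cl]
  change (1 / 2 : ℚ) * (E' (E q (- gOf M.φ (cl (1 - x)))) (gOf M.φ (cl x)) -
    E' (E q (gOf M.φ (cl x))) (- gOf M.φ (cl (1 - x)))) = _
  rw [map_neg, map_neg, map_neg, LinearMap.neg_apply, hE, hE, hE', hE', hq' (cl (1 - x)), ← hq]
  ring

theorem IS_succ {m : ℕ} (ih : IS M m) : IS M (m + 1) := by
  intro Q hQ
  obtain ⟨Q', h1, h2⟩ := K0 m Q hQ
  obtain ⟨l, hl⟩ := ih.vec M Q' h1
  obtain ⟨E, hE, hE0⟩ := exists_ext M ℚ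
  obtain ⟨π, hπ, hπ'⟩ := exists_proj M.toLieCoalg
  obtain ⟨θ, hθ⟩ := functional_two (E ∘ₗ l ∘ₗ π)
  refine ⟨θ ∘ₗ M.d ∘ₗ ExteriorAlgebra.ι ℚ, fun x hx => ?_⟩
  change θ (M.d (ExteriorAlgebra.ι ℚ (M.Li (m + 2 + 1) x))) = _
  rw [M.Li_succ (m + 2) x (by omega) hx, hθ, ← g_cl]
  change E (l (π (M.Li (m + 2) x))) (gOf M.φ (cl x)) -
    E (l (π (gOf M.φ (cl x)))) (M.Li (m + 2) x) = _
  rw [hπ _ (g_mem M _), hπ' (m + 2) (by omega) _ (M.Li_mem (m + 2) x (by omega) hx), hE, hl x hx,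
    h2, map_zero, map_zero, LinearMap.zero_apply, sub_zero]

theorem IS_all (m : ℕ) : IS M m := by
  induction m with
  | zero => exact IS_zero M
  | succ m ih => exact IS_succ M ih

end one

/-! ### the homotopy -/

section four

variable {V : Type} [AddCommGroup V]

/-- a bilinear map from a biadditive function -/
noncomputable def mk2 (f : V → V → ℚ) (h1 : ∀ x y z, f (x + y) z = f x z + f y z)
    (h2 : ∀ x y z, f x (y + z) = f x y + f x z) : V →ₗ[ℤ] (V →ₗ[ℤ] ℚ) :=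
  (AddMonoidHom.mk' (fun x => (AddMonoidHom.mk' (f x) (h2 x)).toIntLinearMap)
    (fun x y => by ext z; exact h1 x y z)).toIntLinearMap

/-- a trilinear map from a triadditive function -/
noncomputable def mk3 (f : V → V → V → ℚ) (h1 : ∀ x y z w, f (x + y) z w = f x z w + f y z w)
    (h2 : ∀ x y z w, f x (y + z) w = f x y w + f x z w)
    (h3 : ∀ x y z w, f x y (z + w) = f x y z + f x y w) :
    V →ₗ[ℤ] (V →ₗ[ℤ] (V →ₗ[ℤ] ℚ)) :=
  (AddMonoidHom.mk' (fun x => mk2 (f x) (h2 x) (h3 x))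
    (fun x y => by ext z w; exact h1 x y z w)).toIntLinearMap

theorem mk3_apply (f : V → V → V → ℚ) (h1) (h2) (h3) (x y z : V) :
    mk3 f h1 h2 h3 x y z = f x y z := rfl

variable {F : Type} [Field F] {C : Type} [AddCommGroup C] [Module ℚ C] (M : MotivicLie C F)
  (hS : ∀ m, H39Gon.SpanDual F m)
  (σ : ∀ n : ℕ, MultilinearMap ℤ (fun _ : Fin n => UV F) (UV F →ₗ[ℤ] C))
  (hσ : ∀ n, IsSig M n (σ n))

include hS hσ in
theorem theta_self (m : ℕ) (θ : ExteriorAlgebra ℚ C →ₗ[ℚ] ℚ)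
    (hθ : ∀ x : F, x ≠ 0 → θ (ExteriorAlgebra.ι ℚ (M.Li (m + 2) x) *
      ExteriorAlgebra.ι ℚ (M.φ (cls x))) = 0) (s v : UV F) :
    θ (ExteriorAlgebra.ι ℚ (gOf M.φ s) * ExteriorAlgebra.ι ℚ (σ (m + 1) (fun _ => s) v)) = 0 := by
  let T : MultilinearMap ℤ (fun _ : Fin (m + 2) => UV F) (UV F →ₗ[ℤ] ℚ) :=
    mk (fun s v => θ (ExteriorAlgebra.ι ℚ (gOf M.φ (s 0)) *
      ExteriorAlgebra.ι ℚ (σ (m + 1) (Fin.tail s) v)))
      (fun s i x y v => by
        induction i using Fin.cases with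
        | zero =>
          simp only [Fin.tail_update_zero, Function.update_self, map_add, add_mul]
        | succ i =>
          simp only [Fin.tail_update_succ, add1, map_add, mul_add]
          rfl)
      (fun s v w => by simp only [map_add, mul_add])
  exact hS (m + 1) T (fun x hx _ => by
    change θ (ExteriorAlgebra.ι ℚ (gOf M.φ (cl x)) *
      ExteriorAlgebra.ι ℚ (σ (m + 1) (fun _ => cl x) (cl (1 - x)))) = 0
    rw [hσ (m + 1) x hx, g_cl, swap, map_neg, hθ x hx, neg_zero]) s v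

include hS hσ in
theorem homotopy_zero (θ : ExteriorAlgebra ℚ C →ₗ[ℚ] ℚ)
    (hθ : ∀ x : F, x ≠ 0 → θ (ExteriorAlgebra.ι ℚ (M.Li 2 x) *
      ExteriorAlgebra.ι ℚ (M.φ (cls x))) = 0) :
    ∃ Θ : ExteriorAlgebra ℚ C →ₗ[ℚ] ℚ, ∀ x : F, x ≠ 0 → ∀ y : UV F,
      Θ (ExteriorAlgebra.ι ℚ (gOf M.φ y) * (ExteriorAlgebra.ι ℚ (M.Li 1 x) *
        ExteriorAlgebra.ι ℚ (M.φ (cls x)))) =
      θ (ExteriorAlgebra.ι ℚ (gOf M.φ y) * ExteriorAlgebra.ι ℚ (M.Li 2 x)) := by
  let t : UV F →ₗ[ℤ] (UV F →ₗ[ℤ] (UV F →ₗ[ℤ] ℚ)) :=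
    mk3 (fun s v y => θ (ExteriorAlgebra.ι ℚ (gOf M.φ y) *
      ExteriorAlgebra.ι ℚ (σ 1 (fun _ => s) v)))
      (fun x y z w => by
        have h1 := (σ 1).map_update_add (fun _ => 0) 0 x y
        have e : ∀ z : UV F, Function.update (fun _ : Fin 1 => (0 : UV F)) 0 z =
            fun _ => z := by
          intro z
          ext i
          fin_cases i
          rfl
        rw [e, e, e] at h1
        rw [h1, LinearMap.add_apply, map_add, mul_add, map_add])
      (fun x y z w => by rw [map_add, map_add, mul_add, map_add])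
      (fun x y z w => by rw [map_add, map_add, add_mul, map_add])
  have ht : ∀ s v y, t s v y = θ (ExteriorAlgebra.ι ℚ (gOf M.φ y) *
      ExteriorAlgebra.ι ℚ (σ 1 (fun _ => s) v)) := fun s v y => rfl
  have h12 : ∀ s v y, t s v y = - t v s y := by
    have h0 : ∀ s y, t s s y = 0 := by
      intro s y
      rw [ht, sig_self M hS σ hσ, map_zero, mul_zero, map_zero]
    intro s v y
    have h1 := h0 (s + v) y
    rw [map_add, map_add, LinearMap.add_apply, LinearMap.add_apply, LinearMap.add_apply,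
      LinearMap.add_apply, LinearMap.add_apply, h0, h0] at h1
    linarith
  have h13 : ∀ s v y, t s v y = - t y v s := by
    have h0 : ∀ s v, t s v s = 0 := by
      intro s v
      rw [ht, theta_self M hS σ hσ 0 θ hθ]
    intro s v y
    have h1 := h0 (s + y) v
    simp only [map_add, LinearMap.add_apply, h0] at h1
    linarith
  have h23 : ∀ s v y, t s v y = - t s y v := by
    intro s v y
    rw [h13, h12, h13 v y s, neg_neg]
  obtain ⟨E, hE, -⟩ := exists_ext M ℚ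
  obtain ⟨E', hE', -⟩ := exists_ext M (UV F →ₗ[ℤ] ℚ)
  obtain ⟨E'', hE'', -⟩ := exists_ext M (UV F →ₗ[ℤ] (UV F →ₗ[ℤ] ℚ))
  obtain ⟨Θ, hΘ⟩ := functional_three
    ((LinearMap.compRight ℚ ((LinearMap.compRight ℚ E) ∘ₗ E')) (E'' t))
  have hT : ∀ a b c : UV F, (LinearMap.compRight ℚ ((LinearMap.compRight ℚ E) ∘ₗ E')) (E'' t)
      (gOf M.φ a) (gOf M.φ b) (gOf M.φ c) = t a b c := by
    intro a b c
    change E (E' (E'' t (gOf M.φ a)) (gOf M.φ b)) (gOf M.φ c) = t a b c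
    rw [hE, hE', hE'']
  refine ⟨(1 / 6 : ℚ) • Θ, fun x hx y => ?_⟩
  have h1 := ht (cl x) (cl (1 - x)) y
  rw [hσ 1 x hx] at h1
  rw [LinearMap.smul_apply, ← h1, M.Li_one x hx, ← g_cl, ← g_cl, map_neg, neg_mul, mul_neg,
    map_neg, hΘ, hT, hT, hT, hT, hT, hT, smul_eq_mul]
  have e1 := h23 y (cl (1 - x)) (cl x)
  have e2 := h12 y (cl (1 - x)) (cl x)
  have e3 := h23 (cl (1 - x)) (cl x) y
  have e4 := h13 y (cl (1 - x)) (cl x)
  have e5 := h23 (cl x) y (cl (1 - x))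
  linarith

include hS hσ in
theorem homotopy_succ (m : ℕ) (θ : ExteriorAlgebra ℚ C →ₗ[ℚ] ℚ)
    (hθ : ∀ x : F, x ≠ 0 → θ (ExteriorAlgebra.ι ℚ (M.Li (m + 3) x) *
      ExteriorAlgebra.ι ℚ (M.φ (cls x))) = 0) :
    ∃ Θ : ExteriorAlgebra ℚ C →ₗ[ℚ] ℚ, ∀ x : F, x ≠ 0 → ∀ y : UV F,
      Θ (ExteriorAlgebra.ι ℚ (gOf M.φ y) * (ExteriorAlgebra.ι ℚ (M.Li (m + 2) x) *
        ExteriorAlgebra.ι ℚ (M.φ (cls x)))) =
      θ (ExteriorAlgebra.ι ℚ (gOf M.φ y) * ExteriorAlgebra.ι ℚ (M.Li (m + 3) x)) := by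
  let Q : MultilinearMap ℤ (fun _ : Fin (m + 2) => UV F) (UV F →ₗ[ℤ] (UV F →ₗ[ℤ] ℚ)) :=
    mk (fun s v => (AddMonoidHom.mk' (fun y => θ (ExteriorAlgebra.ι ℚ (gOf M.φ y) *
      ExteriorAlgebra.ι ℚ (σ (m + 2) s v))) (fun y y' => by
        simp only [map_add, add_mul])).toIntLinearMap)
      (fun s i x y v => by
        ext z
        change θ (_ * ExteriorAlgebra.ι ℚ (σ (m + 2) (Function.update s i (x + y)) v)) =
          θ (_ * ExteriorAlgebra.ι ℚ (σ (m + 2) (Function.update s i x) v)) +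
          θ (_ * ExteriorAlgebra.ι ℚ (σ (m + 2) (Function.update s i y) v))
        rw [add1, map_add, mul_add, map_add])
      (fun s v w => by
        ext z
        change θ (_ * ExteriorAlgebra.ι ℚ (σ (m + 2) s (v + w))) =
          θ (_ * ExteriorAlgebra.ι ℚ (σ (m + 2) s v)) +
          θ (_ * ExteriorAlgebra.ι ℚ (σ (m + 2) s w))
        rw [map_add, map_add, mul_add, map_add])
  have hQ : ∀ s v y, Q s v y = θ (ExteriorAlgebra.ι ℚ (gOf M.φ y) *
      ExteriorAlgebra.ι ℚ (σ (m + 2) s v)) := fun s v y => rfl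
  obtain ⟨Q', h1, h2, h3⟩ := K1 m Q
    (fun s => by
      ext y
      rw [hQ, sig_self M hS σ hσ, map_zero, mul_zero, map_zero]
      rfl)
    (fun s v => by rw [hQ, theta_self M hS σ hσ (m + 1) θ hθ])
  obtain ⟨l, hl⟩ := (IS_all M m).vec M Q' h1
  obtain ⟨E, hE, hE0⟩ := exists_ext M ℚ
  obtain ⟨E', hE', hE0'⟩ := exists_ext M (UV F →ₗ[ℤ] ℚ)
  obtain ⟨π, hπ, hπ'⟩ := exists_proj M.toLieCoalg
  obtain ⟨Θ, hΘ⟩ := functional_three
    ((LinearMap.compRight ℚ E) ∘ₗ E' ∘ₗ l ∘ₗ π)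
  have hT : ∀ a b c : C, ((LinearMap.compRight ℚ E) ∘ₗ E' ∘ₗ l ∘ₗ π) a b c =
      E (E' (l (π a)) b) c := fun a b c => rfl
  refine ⟨(1 / 2 : ℚ) • Θ, fun x hx y => ?_⟩
  have h4 := hQ (fun _ => cl x) (cl (1 - x)) y
  rw [hσ (m + 2) x hx] at h4
  rw [LinearMap.smul_apply, ← h4, ← g_cl, hΘ, hT, hT, hT, hT, hT, hT, hπ _ (g_mem M y),
    hπ _ (g_mem M (cl x)), hπ' (m + 2) (by omega) _ (M.Li_mem (m + 2) x (by omega) hx), hl x hx]
  simp only [hE', hE, map_zero, LinearMap.zero_apply, smul_eq_mul]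
  rw [h2 _ _ y (cl x), h3]
  ring

include hS hσ in
theorem homotopy (m : ℕ) (θ : ExteriorAlgebra ℚ C →ₗ[ℚ] ℚ)
    (hθ : ∀ x : F, x ≠ 0 → θ (ExteriorAlgebra.ι ℚ (M.Li (m + 2) x) *
      ExteriorAlgebra.ι ℚ (M.φ (cls x))) = 0) :
    ∃ Θ : ExteriorAlgebra ℚ C →ₗ[ℚ] ℚ, ∀ x : F, x ≠ 0 → ∀ y : UV F,
      Θ (ExteriorAlgebra.ι ℚ (gOf M.φ y) * (ExteriorAlgebra.ι ℚ (M.Li (m + 1) x) *
        ExteriorAlgebra.ι ℚ (M.φ (cls x)))) =
      θ (ExteriorAlgebra.ι ℚ (gOf M.φ y) * ExteriorAlgebra.ι ℚ (M.Li (m + 2) x)) := by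
  cases m with
  | zero => exact homotopy_zero M hS σ hσ θ hθ
  | succ m => exact homotopy_succ M hS σ hσ m θ hθ

end four

/-! ### the depth one part -/

section two

variable {F : Type} [Field F] {C : Type} [AddCommGroup C] [Module ℚ C] (M : MotivicLie C F)

/-- the space spanned by the `Li_n(x)` -/
def US (n : ℕ) : Submodule ℚ C := Submodule.span ℚ {a | ∃ x : F, x ≠ 0 ∧ a = M.Li n x}

theorem US_le (n : ℕ) (hn : 1 ≤ n) : US M n ≤ M.W n := by
  rw [US, Submodule.span_le]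
  rintro _ ⟨x, hx, rfl⟩
  exact M.Li_mem n x hn hx

/-- an element with the cobracket of an element of `US` is in `US` -/
theorem mem_US (m : ℕ) (α : C) (hα : α ∈ M.W (m + 2))
    (h : M.d (ExteriorAlgebra.ι ℚ α) ∈ (US M (m + 2)).map (M.d ∘ₗ ExteriorAlgebra.ι ℚ)) :
    α ∈ US M (m + 2) := by
  obtain ⟨a, ha, h1⟩ := h
  have h2 : M.d (ExteriorAlgebra.ι ℚ (α - a)) = 0 := by
    rw [map_sub, map_sub, ← h1]
    exact sub_self _
  have h3 := M.ext_one (m + 2) (α - a) (by omega)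
    (Submodule.sub_mem _ hα (US_le M (m + 2) (by omega) ha)) h2
  rw [sub_eq_zero] at h3
  rw [h3]
  exact ha

variable (hS : ∀ m, H39Gon.SpanDual F m)

theorem kills (m : ℕ) (θ : ExteriorAlgebra ℚ C →ₗ[ℚ] ℚ)
    (hθ : ∀ w ∈ (US M (m + 2)).map (M.d ∘ₗ ExteriorAlgebra.ι ℚ), θ w = 0) (x : F) (hx : x ≠ 0) :
    θ (ExteriorAlgebra.ι ℚ (M.Li (m + 1) x) * ExteriorAlgebra.ι ℚ (M.φ (cls x))) = 0 := by
  have h1 := hθ _ ⟨M.Li (m + 1 + 1) x, Submodule.subset_span ⟨x, hx, rfl⟩, rfl⟩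
  change θ (M.d (ExteriorAlgebra.ι ℚ (M.Li (m + 1 + 1) x))) = 0 at h1
  rwa [M.Li_succ (m + 1) x (by omega) hx] at h1

include hS in
theorem step_zero (α : C) (hα : α ∈ M.W 2) : α ∈ US M 2 := by
  refine mem_US M 0 α hα (sep _ _ fun θ hθ => ?_)
  have hk := kills M 0 θ hθ
  let T : MultilinearMap ℤ (fun _ : Fin 1 => UV F) (UV F →ₗ[ℤ] ℚ) :=
    mk (fun s v => θ (ExteriorAlgebra.ι ℚ (gOf M.φ (s 0)) * ExteriorAlgebra.ι ℚ (gOf M.φ v)))
      (fun s i x y v => by
        obtain rfl : i = 0 := Subsingleton.elim _ _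
        simp only [Function.update_self, map_add, add_mul])
      (fun s v w => by simp only [map_add, mul_add])
  have hT : ∀ s v, θ (ExteriorAlgebra.ι ℚ (gOf M.φ s) * ExteriorAlgebra.ι ℚ (gOf M.φ v)) = 0 := by
    intro s v
    refine hS 0 T (fun x hx _ => ?_) s v
    change θ (ExteriorAlgebra.ι ℚ (gOf M.φ (cl x)) *
      ExteriorAlgebra.ι ℚ (gOf M.φ (cl (1 - x)))) = 0
    have h1 := hk x hx
    rw [M.Li_one x hx, map_neg, neg_mul, map_neg, neg_eq_zero] at h1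
    rw [swap, map_neg, g_cl, g_cl, h1, neg_zero]
  have h1 : wedge (M.W 1) (M.W 1) ≤ LinearMap.ker θ := by
    rw [wedge, Submodule.span_le]
    rintro w ⟨a, ha, b, hb, rfl⟩
    rw [← M.φ_range] at ha hb
    obtain ⟨v, rfl⟩ := ha
    obtain ⟨v', rfl⟩ := hb
    obtain ⟨q, x, rfl⟩ := pure v
    obtain ⟨r, y, rfl⟩ := pure v'
    change θ _ = 0
    rw [phi_pure, phi_pure, map_smul, map_smul, smul_mul_assoc, mul_smul_comm, map_smul, map_smul,
      hT, smul_zero, smul_zero]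
  exact h1 (WW_two M (M.d_W 2 α hα))

include hS in
theorem step_all (m : ℕ) : ∀ α ∈ M.W (m + 2),
    M.d (ExteriorAlgebra.ι ℚ α) ∈ wedge (M.W 1) ⊤ → α ∈ US M (m + 2) := by
  obtain ⟨σ, hσ⟩ := sig_exists M
  induction m with
  | zero => exact fun α hα _ => step_zero M hS α hα
  | succ m ih =>
    intro α hα hw
    have h1 : M.d (ExteriorAlgebra.ι ℚ α) ∈ WW M.toLieCoalg (m + 2 + 1) := M.d_W (m + 3) α hα
    have h2 := mem_n1 M.toLieCoalg (m + 2) _ h1 hw
    let b := Module.Basis.ofVectorSpace ℚ (M.W 1)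
    obtain ⟨β, hβ, hsum⟩ := expand M.toLieCoalg b (M.W (m + 2)) _ h2
    have h3 : ∀ j, β j ∈ US M (m + 2) := fun j => ih (β j) (hβ j)
      (comp_mem M.toLieCoalg b (m + 2) β hβ (by rw [← hsum, M.d_d]) j)
    refine mem_US M (m + 1) α hα (sep _ _ fun θ hθ => ?_)
    obtain ⟨Θ, hΘ⟩ := homotopy M hS σ hσ m θ (kills M (m + 1) θ hθ)
    -- the formula for all elements
    have h4 : ∀ y ∈ M.W 1, ∀ u ∈ US M (m + 2), Θ (ExteriorAlgebra.ι ℚ y *
        M.d (ExteriorAlgebra.ι ℚ u)) =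
        θ (ExteriorAlgebra.ι ℚ y * ExteriorAlgebra.ι ℚ u) := by
      intro y hy u hu
      rw [← M.φ_range] at hy
      obtain ⟨v, rfl⟩ := hy
      obtain ⟨q, s, rfl⟩ := pure v
      rw [phi_pure, map_smul, smul_mul_assoc, smul_mul_assoc, map_smul, map_smul]
      congr 1
      rw [US] at hu
      induction hu using Submodule.span_induction with
      | mem u hu =>
        obtain ⟨x, hx, rfl⟩ := hu
        have h5 := hΘ x hx s
        rw [← M.Li_succ (m + 1) x (by omega) hx] at h5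
        exact h5
      | zero => simp only [map_zero, mul_zero]
      | add u u' _ _ hu hu' => simp only [map_add, mul_add, hu, hu']
      | smul r u _ hu => simp only [map_smul, mul_smul_comm, hu]
    have h5 : M.d (M.d (ExteriorAlgebra.ι ℚ α)) = 0 := M.d_d _
    rw [hsum, Finsupp.sum, map_sum] at h5
    rw [hsum, Finsupp.sum, map_sum]
    have h6 := congrArg Θ h5
    rw [map_sum, map_zero] at h6
    rw [← neg_eq_zero, ← Finset.sum_neg_distrib, ← h6]
    refine Finset.sum_congr rfl fun i _ => ?_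
    rw [M.d_mul, d_W_one M.toLieCoalg _ (b i).2, zero_mul, zero_sub, map_neg,
      h4 _ (b i).2 _ (h3 i)]

end two

end DepN

open Pool.Agent.TH358.MC

/-- if `x ⊗ ... ⊗ x ⊗ (1 - x)` span `Sym ^ (m + 1) (F^*) ⊗ F^* ⊗ ℚ` for all `m`, then the part of
depth one of the motivic Lie coalgebra is spanned by the classical polylogarithms. -/
theorem D_one_of_spanDual {F : Type} [Field F] {C : Type} [AddCommGroup C] [Module ℚ C]
    (M : MotivicLie C F) (h : ∀ m, H39Gon.SpanDual F m) : M.toLieCoalg.D 1 =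
      Submodule.span ℚ {a | ∃ (n : ℕ) (x : F), 1 ≤ n ∧ x ≠ 0 ∧ a = M.Li n x} := by
  classical
  apply le_antisymm
  · intro α hα
    have h1 : α ∈ ⨆ i, M.W i := by
      rw [M.internal.submodule_iSup_eq_top]
      exact Submodule.mem_top
    obtain ⟨f, hf, rfl⟩ := (Submodule.mem_iSup_iff_exists_finsupp _ _).1 h1
    rw [Finsupp.sum]
    refine Submodule.sum_mem _ fun i _ => ?_
    have h2 := D_one_graded M f hf hα i
    rcases Nat.eq_zero_or_pos i with hi0 | hi0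
    · have h3 := hf i
      rw [hi0, M.W_zero, Submodule.mem_bot] at h3
      rw [hi0, h3]
      exact Submodule.zero_mem _
    · have h3 : f i ∈ Submodule.span ℚ {a | ∃ x : F, x ≠ 0 ∧ a = M.Li i x} := by
        rcases Nat.lt_or_ge i 2 with hi | hi
        · have h4 : i = 1 := by omega
          subst h4
          rw [← W_one_eq]
          exact hf 1
        · obtain ⟨m, rfl⟩ : ∃ m, i = m + 2 := ⟨i - 2, by omega⟩
          exact DepN.step_all M h m _ (hf _) ((mem_D_one M _).1 h2)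
      refine Submodule.span_mono ?_ h3
      rintro _ ⟨x, hx, rfl⟩
      exact ⟨i, x, hi0, hx, rfl⟩
  · rw [Submodule.span_le]
    rintro _ ⟨n, x, hn, hx, rfl⟩
    exact Li_mem_D M n hn x hx

end Pool.Agent.H366.FC
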